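import Mathlib
import Pool.Agent.N839.HG.Bridge

/-!
# MP_46c6cb_nt: the associated order in the canonical nonclassical Hopf-Galois structure is maximal

For a Galois extension `L/K` of `p`-adic fields with `p ∤ [L:K]`, the associated order `𝔄_λ` of `𝔒_L`
in `H_λ = L[λ(G)]^G` is a maximal `𝔒_K`-order.
-/

set_option autoImplicit false

open Pool.Agent.N839.HG.Stmt

/-- Let `L/K` be a Galois extension of `p`-adic fields, with group `G = L ≃ₐ[K] L`, such that
`p ∤ [L:K]`.  Then the associated order `𝔄_λ` of `𝔒_L` in `H_λ` is a maximal `𝔒_K`-order of `H_λ`. -/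
theorem Pool.Agent.Results.MP_46c6cb_nt.MaximalOrder.result (p : ℕ) [Fact p.Prime]
    (K L : Type*) [Field K] [Field L] [Algebra ℚ_[p] K] [FiniteDimensional ℚ_[p] K]
    [Algebra ℚ_[p] L] [Algebra K L] [IsScalarTower ℚ_[p] K L] [FiniteDimensional K L]
    [IsGalois K L] (h : ¬ p ∣ Module.finrank K L) :
    IsMaximalOrder (ringOfInts p K) (Hlambda L (L ≃ₐ[K] L)) (assocOrder p L (L ≃ₐ[K] L)) :=
  main p K L h
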